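import Pool.Agent.Helper99.NQ.Defs
import Pool.Agent.Helper96.PH.Defs

/-!
# Deterministic programs which query single symbols, some of them rarely: definitions

The network of `Helper99.NQ` (the alphabet is the finite field `F`, for bits `ZMod 2`; an input is a function
`I : B × Word D m B → F`), with rows `0, …, R + 1`; the result is the sum of the symbols number `0` of the blocks of the
letters of the row `R + 1`. These symbols do not matter for the words.
-/

namespace Pool.Agent.Helper96.PB

open Finset Pool.Agent.Helper19.NF Pool.Agent.Helper74.NW Pool.Agent.Helper99.NQ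
open Pool.Agent.Helper74.NE (fine fine_apply)
open Pool.Agent.Helper96.PH (Cut Det Greedy CB opn)

section defs

variable {n D m S : ℕ} {F B G Z : Type} [Field F] [AddCommGroup B] [Module F B]

open Classical in
/-- The program with the answers `γ b` to the queries of the symbols `(b, 0)`. -/
noncomputable def fixz (P : NProg (B × Word D m B) F Z S) (γ : B → F) : NProg (B × Word D m B) F Z S where
  start := P.start
  act := fun s => (P.act s).map (fun t => (t.1, fun y => t.2 (if t.1.2 = 0 then γ t.1.1 else y))) id

variable [Fintype B] [NeZero m]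

/-- The result. -/
noncomputable def out (g : Fin D → Equiv.Perm (Fin n)) (x0 : Fin n × Fin m → B) (R : ℕ)
    (I : B × Word D m B → F) : F := ∑ v, I (val (fine g) x0 (tab I) (R + 1) v, 0)

/-- The result, for given symbols `γ` with the number `0`. -/
noncomputable def gout [AddCommGroup G] (g : Fin D → Equiv.Perm (Fin n)) (x0 : Fin n × Fin m → B) (R : ℕ) (γ : B → G)
    (I : B × Word D m B → F) : G := ∑ v, γ (val (fine g) x0 (tab I) (R + 1) v)

/-- The bad inputs of the type `(i, s, p, k1, k2, A, h1, h2)`. -/
structure InD (P : NProg (B × Word D m B) F Z S) (g : Fin D → Equiv.Perm (Fin n)) (x0 : Fin n × Fin m → B)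
    (h T i : ℕ) (s p : Fin S) (k1 k2 : ℕ) (A : Finset (Fin n)) (h1 h2 : Fin n → Fin D × Fin m)
    (I : B × Word D m B → F) : Prop where
  cf : CF (fine g) x0 i (tab I)
  run : open Classical in ∃ c1 c2 t, P.Run I s c1 p ∧ P.Run I p c2 t ∧ c1.length = k1 ∧ c2.length = k2 ∧
    Fintype.card (B × Word D m B) ≤ (free c1 ∩ free c2).card + T ∧
    (∀ u ∈ A, ∀ t', gap (free c1 ∩ free c2) (val (fine g) x0 (tab I) (i + 1) (u, t')) < h) ∧
    (∀ u ∈ A, h ≤ gap (free c1) (val (fine g) x0 (tab I) i (pos g h1 u))) ∧
    (∀ u ∈ A, h ≤ gap (free c2) (val (fine g) x0 (tab I) i (pos g h2 u)))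

open Classical in
/-- A letter of row `i` used by the node `v` of row `i + 1` whose block has at least `h` symbols in `V`, if there is
one. -/
noncomputable def miss (g : Fin D → Equiv.Perm (Fin n)) (x0 : Fin n × Fin m → B) (h i : ℕ)
    (I : B × Word D m B → F) (V : Finset (B × Word D m B)) (v : Fin n) : Option (Fin D × Fin m) :=
  if hh : ∃ c : Fin D × Fin m, h ≤ gap V (val (fine g) x0 (tab I) i (g c.1 v, c.2)) then some hh.choose else none

/-- For every `l` there is a greedy window from the state `σ l` to the state `σ (l + 1)` with the missing letters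
`τ l`. -/
def InT (P : NProg (B × Word D m B) F Z S) (g : Fin D → Equiv.Perm (Fin n)) (x0 : Fin n × Fin m → B) (h T R : ℕ)
    {w : ℕ} (σ : Fin (w + 2) → Fin S) (τ : Fin (w + 1) → Fin n → Option (Fin D × Fin m))
    (I : B × Word D m B → F) : Prop :=
  ∀ l : Fin (w + 1), ∃ x : List (B × Word D m B), P.Run I (σ l.castSucc) x (σ l.succ) ∧
    Greedy P T (σ l.succ) x ∧ ∀ v, miss g x0 h R I (free x) v = τ l v

end defs

open Classical in
/-- A subset with `h` elements, if there is one. -/
noncomputable def sub {α : Type} (h : ℕ) (X : Finset α) : Finset α :=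
  if hh : ∃ Y ⊆ X, Y.card = h then hh.choose else ∅

/-- The error of the first part: `r` is the least part of a block left in a hole. -/
noncomputable def errA (n D m a R S : ℕ) (r η : ℝ) : ℝ :=
  R * n.choose a * ((D * m) ^ a) ^ 2 * (S : ℝ) ^ 2 * (2 ^ R + 1) ^ 2 * (2 * (1 / r) ^ (2 * a) / η ^ (m * a))

end Pool.Agent.Helper96.PB
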