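import Pool.Agent.Helper96.PB.Defs
import Pool.Agent.Helper84.PH.Row
import Pool.Agent.Helper60.NK.Upper

/-!
# The deterministic program without store which queries single symbols
-/

set_option autoImplicit false
set_option linter.unusedSectionVars false

namespace Pool.Agent.Helper96.PB

open Pool.Agent.Helper19.NF Pool.Agent.Helper74.NW Pool.Agent.Helper99.NQ
open Pool.Agent.Helper74.NE (fine fine_apply)
open Pool.Agent.Helper96.PH (Det)
open Pool.Agent.Helper84.NW (Ins exec qs exec_append length_qs script_program Mem)
open Pool.Agent.Helper60.NK (tabA cont tabA_cont)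

section script

variable {F B A V M : Type} [AddCommMonoid A]

/-- An instruction for cells, as a list of instructions for symbols. -/
def blk (φ : F → V → A) (p : Ins B A M) : List V → List (Ins (B × V) F (M × A))
  | [] => []
  | [l] => [(fun x => (p.1 x.1, l), fun x y => (p.2 x.1 (x.2 + φ y l), 0))]
  | l :: l' :: ls => (fun x => (p.1 x.1, l), fun x y => (x.1, x.2 + φ y l)) :: blk φ p (l' :: ls)

theorem length_blk (φ : F → V → A) (p : Ins B A M) (ls : List V) : (blk φ p ls).length = ls.length := by
  induction ls with
  | nil => rfl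
  | cons l ls ih =>
    cases ls with
    | nil => rfl
    | cons l' ls =>
      unfold blk
      rw [List.length_cons, ih, List.length_cons (a := l)]

theorem exec_blk (φ : F → V → A) (p : Ins B A M) (I : B × V → F) (ls : List V) (hls : ls ≠ []) (m : M) (s : A) :
    exec I (blk φ p ls) (m, s) = (p.2 m (s + (ls.map (fun l => φ (I (p.1 m, l)) l)).sum), 0) := by
  induction ls generalizing s with
  | nil => exact absurd rfl hls
  | cons l ls ih =>
    cases ls with
    | nil => simp [blk, exec]
    | cons l' ls =>
      unfold blk
      unfold exec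
      rw [ih (by simp)]
      simp only [List.map_cons, List.sum_cons, add_assoc]

/-- A script for cells, as a script for symbols. -/
def blks (φ : F → V → A) (ls : List V) (L : List (Ins B A M)) : List (Ins (B × V) F (M × A)) :=
  L.flatMap (fun p => blk φ p ls)

theorem length_blks (φ : F → V → A) (ls : List V) (L : List (Ins B A M)) :
    (blks φ ls L).length = L.length * ls.length := by
  unfold blks
  induction L with
  | nil => simp
  | cons p L ih =>
    rw [List.flatMap_cons, List.length_append, ih, length_blk, List.length_cons]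
    ring

theorem exec_blks [Fintype V] (φ : F → V → A) (I : B × V → F) [Nonempty V] (L : List (Ins B A M)) (m : M) :
    exec I (blks φ (Finset.univ : Finset V).toList L) (m, 0) = (exec (tabA φ I) L m, 0) := by
  have h0 : (Finset.univ : Finset V).toList ≠ [] := by
    intro h
    rw [Finset.toList_eq_nil] at h
    exact Finset.univ_nonempty.ne_empty h
  induction L generalizing m with
  | nil => rfl
  | cons p L ih =>
    have h1 : blks φ (Finset.univ : Finset V).toList (p :: L) =
        blk φ p (Finset.univ : Finset V).toList ++ blks φ (Finset.univ : Finset V).toList L := rfl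
    rw [h1, exec_append, exec_blk φ p I _ h0, Finset.sum_map_toList, zero_add]
    exact ih _

end script

/-- The row program. -/
theorem row_program {n D m : ℕ} [NeZero m] {F B : Type} [Field F] [Fintype F] [AddCommGroup B] [Module F B]
    [Fintype B] (g : Fin D → Equiv.Perm (Fin n)) (x0 : Fin n × Fin m → B) (R : ℕ)
    (hB : (R + 2) * (n * m) < Fintype.card B) (hq : Fintype.card F ≤ Fintype.card B) :
    ∃ (S : ℕ) (P : NProg (B × Word D m B) F F S), S ≤ Fintype.card B ^ (2 * (n * m) + 2 * (D * m) + 3) ∧ Det P ∧
      ∀ I, (∃ l, P.Ends I l (out g x0 R I)) ∧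
        ∀ l z, P.Ends I l z → z = out g x0 R I ∧ l.length ≤ (R + 2) * (n * m) * Fintype.card (Word D m B) := by
  classical
  have hU : Fintype.card (Fin n × Fin m) = n * m := by
    rw [Fintype.card_prod, Fintype.card_fin, Fintype.card_fin]
  have hV : Fintype.card (Word D m B) = Fintype.card B ^ (D * m) := by
    rw [Fintype.card_fun, Fintype.card_prod, Fintype.card_fin, Fintype.card_fin]
  set L0 : List (Ins B ((Fin D × Fin m → B) × F) (Mem (Fin n × Fin m) B × F)) :=
    Pool.Agent.Helper84.PH.script (fine g) R with hL0
  have hlen0 : L0.length = (R + 2) * (n * m) := by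
    rw [hL0, Pool.Agent.Helper84.PH.length_script, hU]
  set L1 := blks (cont (D := D) (m := m) (B := B) (F := F)) (Finset.univ : Finset (Word D m B)).toList L0 with hL1
  have hlen : L1.length = (R + 2) * (n * m) * Fintype.card (Word D m B) := by
    rw [hL1, length_blks, hlen0, Finset.length_toList, Finset.card_univ]
  obtain ⟨P, hP, h⟩ := script_program (Z := F) L1 ((((0, x0), 0) : Mem (Fin n × Fin m) B × F), 0) (fun x => x.1.2)
  have hex : ∀ I : B × Word D m B → F,
      (exec I L1 ((((0, x0), 0) : Mem (Fin n × Fin m) B × F), 0)).1.2 = out g x0 R I := by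
    intro I
    rw [hL1, exec_blks, hL0, Pool.Agent.Helper84.PH.exec_script]
    simp only [tabA_cont]
    rfl
  have huniq : ∀ I l z, P.Ends I l z → l = qs I L1 ((((0, x0), 0) : Mem (Fin n × Fin m) B × F), 0) ∧
      z = out g x0 R I := by
    intro I l z hl
    obtain ⟨t, h1, h2⟩ := h I
    obtain ⟨t', h1', h2'⟩ := hl
    rw [hex] at h2
    exact hP.unique h1 h2 h1' h2'
  refine ⟨_, P, ?_, fun s c next hs x => ?_, fun I => ⟨⟨_, hex I ▸ h I⟩, fun l z hl => ⟨(huniq I l z hl).2, ?_⟩⟩⟩
  · have hcard : Fintype.card ((Mem (Fin n × Fin m) B × F) × (Word D m B × F)) =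
        Fintype.card B ^ (2 * (n * m)) * Fintype.card F * (Fintype.card B ^ (D * m) * Fintype.card F) := by
      rw [Fintype.card_prod, Fintype.card_prod, Fintype.card_prod, Fintype.card_fun, hU, ← pow_add, two_mul,
        Fintype.card_prod, hV]
    rw [hlen, hV]
    refine (Nat.mul_le_mul_left _ hcard.le).trans ?_
    have h1 : (R + 2) * (n * m) * Fintype.card B ^ (D * m) + 1 ≤ Fintype.card B * Fintype.card B ^ (D * m) := by
      have h2 : 0 < Fintype.card B ^ (D * m) := Nat.pow_pos (by omega)
      have h3 : ((R + 2) * (n * m) + 1) * Fintype.card B ^ (D * m) ≤ Fintype.card B * Fintype.card B ^ (D * m) :=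
        Nat.mul_le_mul_right _ hB
      rw [Nat.add_mul, one_mul] at h3
      omega
    calc ((R + 2) * (n * m) * Fintype.card B ^ (D * m) + 1) *
          (Fintype.card B ^ (2 * (n * m)) * Fintype.card F * (Fintype.card B ^ (D * m) * Fintype.card F))
        ≤ (Fintype.card B * Fintype.card B ^ (D * m)) *
          (Fintype.card B ^ (2 * (n * m)) * Fintype.card B * (Fintype.card B ^ (D * m) * Fintype.card B)) :=
          Nat.mul_le_mul h1 (Nat.mul_le_mul (Nat.mul_le_mul_left _ hq) (Nat.mul_le_mul_left _ hq))
      _ = Fintype.card B ^ (2 * (n * m) + 2 * (D * m) + 3) := by ring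
  · obtain ⟨t, ht⟩ := hP s c next hs x
    rw [ht]
    exact Set.subsingleton_singleton
  · rw [(huniq I l z hl).1, length_qs, hlen]

end Pool.Agent.Helper96.PB
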