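import Pool.Agent.Helper6.PB.Main2
import Pool.Agent.Helper96.PH.Final
import Pool.Agent.Helper96.PB.Row
import Pool.Agent.Helper97.PB.Num

/-!
# The theorem
-/

namespace Pool.Agent.Helper96.PB

open Finset Pool.Agent.Helper19.NF Pool.Agent.Helper74.NW Pool.Agent.Helper99.NQ
open Pool.Agent.Helper74.NE (fine fine_apply)
open Pool.Agent.Helper96.PH (Cut Det win win_le cut_of_rare)

theorem count_congr {α : Type} (i1 i2 : BEq α) (l1 : @LawfulBEq α i1) (l2 : @LawfulBEq α i2) (l : List α) (z : α) :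
    @List.count α i1 z l = @List.count α i2 z l := by
  unfold List.count
  congr 1
  funext y
  classical
  have e1 : (@BEq.beq α i1 y z) = decide (y = z) := @beq_eq_decide α i1 l1 _ y z
  have e2 : (@BEq.beq α i2 y z) = decide (y = z) := @beq_eq_decide α i2 l2 _ y z
  rw [e1, e2]

/-- The theorem. -/
theorem main : ∃ C : ℝ, 1 ≤ C ∧ ∀ (ε θ : ℝ) (w a m : ℕ) [NeZero m], 0 < ε → ε ≤ 1 → 0 < θ → θ ≤ 1 → C ≤ a →
    C ^ (w + 1) / ε ^ 2 ≤ m → 1 ≤ θ * 2 ^ a → ∃ g : Fin 15 → Equiv.Perm (Fin (8 * a * (w + 1))),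
      ∀ (B : Type) [AddCommGroup B] [Module (ZMod 2) B] [Fintype B] [DecidableEq B]
        (x0 : Fin (8 * a * (w + 1)) × Fin m → B),
      Function.Injective x0 → C * (a ^ 2 * (w + 1) * m : ℝ) ^ 2 ≤ θ ^ 2 * Fintype.card B →
        -- the computations which can be cut
        (∀ l : List (B × Word 15 m B), ((∃ X : Finset (B × Word 15 m B),
            ε * Fintype.card (B × Word 15 m B) ≤ X.card ∧ ∀ z ∈ X, l.count z ≤ w) ∨
            l.length ≤ (w + 1) * win ε w (Fintype.card (B × Word 15 m B))) →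
          Cut (win ε w (Fintype.card (B × Word 15 m B))) (w + 1) l) ∧
        -- deterministic programs
        (∀ (S : ℕ) (P : NProg (B × Word 15 m B) (ZMod 2) (ZMod 2) S), S ≤ 2 ^ a → Det P →
          (Nat.card {I : B × Word 15 m B → ZMod 2 // ∃ l, P.Ends I l (out g x0 a I) ∧
              Cut (win ε w (Fintype.card (B × Word 15 m B))) (w + 1) l} : ℝ) ≤
            Nat.card {I : B × Word 15 m B → ZMod 2 // ∃ l z, P.Ends I l z ∧
              Cut (win ε w (Fintype.card (B × Word 15 m B))) (w + 1) l} / 2 +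
            θ * Nat.card (B × Word 15 m B → ZMod 2)) ∧
        -- the pushdown program
        (∃ (Q Γ : Type) (_ : Finite Q) (_ : Finite Γ) (P : PProg (B × Word 15 m B) (ZMod 2) (ZMod 2) Q Γ),
          Nat.card Q ≤ Fintype.card (B × Word 15 m B) ^ 3 ∧ Nat.card Γ ≤ Fintype.card (B × Word 15 m B) ∧
          ∀ I, P.Outputs I (out g x0 a I) ∧
            Nat.card {x // P.Asks I x} ^ 2 * Fintype.card B ≤ Fintype.card (B × Word 15 m B) ^ 2) ∧
        -- the program without store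
        ∃ (S : ℕ) (P : NProg (B × Word 15 m B) (ZMod 2) (ZMod 2) S),
          S ≤ Fintype.card (B × Word 15 m B) ^ (2 * a * (w + 1)) ∧ Det P ∧
          ∀ I, (∃ l, P.Ends I l (out g x0 a I)) ∧
            ∀ l z, P.Ends I l z → z = out g x0 a I ∧
              l.length ^ 2 * Fintype.card B ≤ Fintype.card (B × Word 15 m B) ^ 2 := by
  classical
  obtain ⟨C₀, hC₀, hnum⟩ := Pool.Agent.Helper97.PB.numbers'
  refine ⟨1000 * C₀, by linarith, fun ε θ w a m _ h0 h1 hθ0 hθ1 ha hm hθ => ?_⟩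
  have ha1 : (1000 : ℝ) ≤ a := by linarith
  have ha2 : 1 ≤ a := by
    have : 1000 ≤ a := by exact_mod_cast ha1
    omega
  have hpow : C₀ ^ (w + 1) ≤ (1000 * C₀) ^ (w + 1) := pow_le_pow_left₀ (by linarith) (by linarith) _
  have hm' : C₀ ^ (w + 1) / ε ^ 2 ≤ m := (div_le_div_of_nonneg_right hpow (by positivity)).trans hm
  have hm1 : (1000 : ℝ) ≤ m := by
    refine le_trans ?_ hm
    rw [le_div_iff₀ (by positivity)]
    have h2 : ε ^ 2 ≤ 1 := by nlinarith
    have h3 : (1000 : ℝ) * C₀ ≤ (1000 * C₀) ^ (w + 1) := le_self_pow₀ (by linarith) (by omega)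
    nlinarith
  obtain ⟨g, hg⟩ := Pool.Agent.Helper84.PH.exists_perms a (w + 1) ha2 (by omega)
  refine ⟨g, fun B _ _ _ _ x0 hx0 hk => ?_⟩
  set k := Fintype.card B with hkB
  set N := Fintype.card (B × Word 15 m B) with hN
  set L := Fintype.card (Word 15 m B) with hL
  have hNkL : N = k * L := by rw [hN, Fintype.card_prod]
  have hLk : L = k ^ (15 * m) := by
    rw [hL, Fintype.card_fun, Fintype.card_prod, Fintype.card_fin, Fintype.card_fin]
  have hx2 : (0 : ℝ) ≤ (a ^ 2 * (w + 1) * m : ℝ) ^ 2 := by positivity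
  have hk1 : 1000 * (a ^ 2 * (w + 1) * m : ℝ) ^ 2 ≤ k := by
    refine (mul_le_mul_of_nonneg_right (by linarith) hx2).trans (hk.trans ?_)
    exact mul_le_of_le_one_left (Nat.cast_nonneg _) (pow_le_one₀ hθ0.le hθ1)
  have hk2 : C₀ * (a ^ 2 * (w + 1) * m : ℝ) ^ 2 ≤ θ ^ 2 * k :=
    (mul_le_mul_of_nonneg_right (by linarith) hx2).trans hk
  obtain ⟨u1, u2, u3, u4, u5, u6⟩ := Pool.Agent.Helper96.PH.upper (r := w) ha1 hm1 hk1
  have hkN : k ≤ N := by
    rw [hNkL]
    refine Nat.le_mul_of_pos_right _ ?_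
    rw [hLk]
    exact Nat.pow_pos (by omega)
  refine ⟨?_, ?_, ?_, ?_⟩
  · rintro l (⟨X, hX, hl⟩ | hl)
    · refine cut_of_rare h0 h1 ?_ l X (by rw [← hN]; linarith) fun b hb => ?_
      · have h2 : (1 : ℝ) ≤ ε * m ^ 2 := by
          have h3 : 1 ≤ ε ^ 2 * m := by
            have h4 : (1000 : ℝ) * C₀ ≤ (1000 * C₀) ^ (w + 1) := le_self_pow₀ (by linarith) (by omega)
            have h5 : (1000 * C₀) ^ (w + 1) ≤ ε ^ 2 * m := by
              rw [div_le_iff₀ (by positivity)] at hm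
              linarith
            linarith
          have h4 : ε ^ 2 * m ≤ ε * m ^ 2 := by
            have h5 : ε * ε ≤ ε * 1 := mul_le_mul_of_nonneg_left h1 h0.le
            have h6 : (m : ℝ) ≤ m ^ 2 := by nlinarith
            calc ε ^ 2 * m = ε * ε * m := by ring
              _ ≤ ε * 1 * m := mul_le_mul_of_nonneg_right h5 (by positivity)
              _ ≤ ε * m ^ 2 := by
                rw [mul_one]
                exact mul_le_mul_of_nonneg_left h6 h0.le
          exact h3.trans h4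
        have h3 : (1 : ℝ) ≤ (a ^ 2) ^ 2 := one_le_pow₀ (one_le_pow₀ (by linarith))
        have h4 : ε * (1000 * (a ^ 2 * (w + 1) * m : ℝ) ^ 2) ≤ ε * k := mul_le_mul_of_nonneg_left hk1 h0.le
        have h5 : 1000 * (w + 1 : ℝ) ^ 2 ≤ ε * (1000 * (a ^ 2 * (w + 1) * m : ℝ) ^ 2) := by
          calc 1000 * (w + 1 : ℝ) ^ 2 = 1000 * (w + 1 : ℝ) ^ 2 * 1 * 1 := by ring
            _ ≤ 1000 * (w + 1 : ℝ) ^ 2 * (a ^ 2) ^ 2 * (ε * m ^ 2) :=
              mul_le_mul (mul_le_mul_of_nonneg_left h3 (by positivity)) h2 (by norm_num) (by positivity)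
            _ = _ := by ring
        have h6 : ε * k ≤ ε * N := mul_le_mul_of_nonneg_left (by exact_mod_cast hkN) h0.le
        have h7 : ((w + 2) * (w + 2) : ℝ) < 1000 * (w + 1) ^ 2 := by
          have : (0 : ℝ) ≤ w := Nat.cast_nonneg _
          nlinarith
        linarith
      · refine le_of_eq_of_le ?_ (hl b hb)
        exact count_congr _ _ inferInstance inferInstance l b
    · exact Pool.Agent.Helper6.PH.cut_of_length l hl
  · intro S P hS hP
    set T := win ε w N with hT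
    set h := ⌊ε / (w + 2) / 2 * L⌋₊ with hh
    set η : ℝ := 1 + (1 - (T : ℝ) / (k * L) - (h : ℝ) / L) / 2 with hη
    have hT' : (T : ℝ) ≤ (1 - ε / (w + 2)) * (k * L) := by
      have := win_le (r := w) (k := N) h1
      rw [hNkL] at this
      push_cast at this
      rw [hT, hNkL]
      exact this
    obtain ⟨n1, n2, n3, n4⟩ := hnum k m a w L h T S ε η θ h0 h1 hθ0 hθ1 hθ (by linarith) hm' hk2 hLk hh hT' hS hη
    have hη' : η = 1 + (1 - (T : ℝ) / Fintype.card (B × Word 15 m B) - (h : ℝ) / Fintype.card (Word 15 m B)) / 2 := by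
      rw [hη, ← hN, ← hL, hNkL]
      push_cast
      ring
    have hn : (w + 1) * a ≤ 8 * a * (w + 1) := by
      calc (w + 1) * a = 1 * (a * (w + 1)) := by ring
        _ ≤ 8 * (a * (w + 1)) := Nat.mul_le_mul_right _ (by norm_num)
        _ = 8 * a * (w + 1) := by ring
    have h2 := Pool.Agent.Helper6.PB.main_bound P hP g x0 hx0 (h := h) (T := T) (a := a) (R := a) (w := w) hg ha2 n1 n2 η hη' n3 hS hn
    rw [ZMod.card] at h2
    have h4 : (0 : ℝ) ≤ Nat.card (B × Word 15 m B → ZMod 2) := Nat.cast_nonneg _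
    have h5 := mul_le_mul_of_nonneg_right n4 h4
    push_cast at h2 h5
    exact h2.trans (add_le_add le_rfl h5)
  · have h7 : 15 * m ≤ k := by
      refine le_trans ?_ u4
      have h7 : 15 * m ≤ 8 * a * (w + 1) * m := by
        refine Nat.mul_le_mul_right _ ?_
        have : 1000 ≤ a := by exact_mod_cast ha1
        nlinarith
      exact h7.trans (Nat.le_mul_of_pos_left _ (by omega))
    obtain ⟨Q, Γ, hQ, hΓ, P, p1, p2, p3⟩ := Pool.Agent.Helper60.NK.upper (F := ZMod 2) g x0 a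
      (by positivity) u4 u6 h7 (by
        have : 1 ≤ m := Nat.pos_of_ne_zero (NeZero.ne m)
        omega)
    · rw [Nat.card_eq_fintype_card (α := B × Word 15 m B)] at p1 p2
      refine ⟨Q, Γ, hQ, hΓ, P, p1, p2, fun I => ⟨(p3 I).1, ?_⟩⟩
      have h2 := (p3 I).2
      rw [Nat.card_eq_fintype_card (α := Word 15 m B), ← hL] at h2
      calc Nat.card {x // P.Asks I x} ^ 2 * k ≤ ((a + 2) * (8 * a * (w + 1) * m) * L) ^ 2 * k :=
            Nat.mul_le_mul_right _ (Nat.pow_le_pow_left h2 2)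
        _ = ((a + 2) * (8 * a * (w + 1) * m)) ^ 2 * (k * L ^ 2) := by ring
        _ ≤ k * (k * L ^ 2) := Nat.mul_le_mul_right _ u3
        _ = N ^ 2 := by rw [hNkL]; ring
  · have h8 : (a + 2) * (8 * a * (w + 1) * m) < k := by
      have h9 : 2 ≤ (a + 2) * (8 * a * (w + 1) * m) := by
        have h10 : 1 ≤ m := Nat.pos_of_ne_zero (NeZero.ne m)
        have h11 : 0 < 8 * a * (w + 1) * m := by positivity
        exact (by omega : 2 ≤ (a + 2) * 1).trans (Nat.mul_le_mul_left _ h11)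
      refine lt_of_lt_of_le ?_ u3
      rw [pow_two]
      exact lt_mul_of_one_lt_left (by omega) (by omega)
    obtain ⟨S, P, h2, h3, h4⟩ := row_program (F := ZMod 2) g x0 a h8 (by rw [ZMod.card]; exact u6)
    rw [← hkB] at h2
    refine ⟨S, P, h2.trans ?_, h3, fun I => ⟨(h4 I).1, fun l z hl => ⟨((h4 I).2 l z hl).1, ?_⟩⟩⟩
    · rw [hNkL, hLk, ← pow_succ', ← pow_mul]
      refine Nat.pow_le_pow_right (by omega) ?_
      have h10 : 1 ≤ m := Nat.pos_of_ne_zero (NeZero.ne m)
      have h11 : 1000 ≤ a := by exact_mod_cast ha1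
      have h12 : 1000 * m ≤ a * (w + 1) * m :=
        Nat.mul_le_mul_right _ (h11.trans (Nat.le_mul_of_pos_right _ (Nat.succ_pos w)))
      have h13 : 1000 ≤ a * (w + 1) := h11.trans (Nat.le_mul_of_pos_right _ (Nat.succ_pos w))
      calc 2 * (8 * a * (w + 1) * m) + 2 * (15 * m) + 3 = 16 * (a * (w + 1) * m) + 30 * m + 3 := by ring
        _ ≤ 30 * (a * (w + 1) * m) + 2 * (a * (w + 1)) := by omega
        _ = (15 * m + 1) * (2 * a * (w + 1)) := by ring
    · have h5 := ((h4 I).2 l z hl).2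
      rw [← hL] at h5
      calc l.length ^ 2 * k ≤ ((a + 2) * (8 * a * (w + 1) * m) * L) ^ 2 * k :=
            Nat.mul_le_mul_right _ (Nat.pow_le_pow_left h5 2)
        _ = ((a + 2) * (8 * a * (w + 1) * m)) ^ 2 * (k * L ^ 2) := by ring
        _ ≤ k * (k * L ^ 2) := Nat.mul_le_mul_right _ u3
        _ = N ^ 2 := by rw [hNkL]; ring

end Pool.Agent.Helper96.PB
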