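import Pool.Agent.Helper96.PB.Defs
import Pool.Agent.Helper66.NQ.Orb
import Pool.Agent.Helper96.PH.Params

/-!
# Frame of PB: the statements of the pieces (this file contains `sorry` and is not imported by anything)
-/

namespace Pool.Agent.Helper96.PB.Frame

open Finset Pool.Agent.Helper19.NF Pool.Agent.Helper74.NW Pool.Agent.Helper99.NQ Pool.Agent.Helper96.PB
open Pool.Agent.Helper74.NE (fine fine_apply)
open Pool.Agent.Helper96.PH (Cut Det Greedy CB opn win)
open Pool.Agent.Helper74.NS (Expands)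
open Pool.Agent.Helper66.NQ (act)

/-- D1: a deterministic program has at most one run of a given length (from `Helper98.PH` `det_aux`). -/
theorem run_unique {C W Z : Type} {S : ℕ} {P : NProg C W Z S} (hP : Det P) {I : C → W} {s t t' : Fin S}
    {c c' : List C} (h : P.Run I s c t) (h' : P.Run I s c' t') (hl : c.length = c'.length) : c = c' ∧ t = t' := by
  sorry

section net

variable {n D m S : ℕ} [NeZero m] {F B G Z : Type} [Field F] [Fintype F] [AddCommGroup B] [Module F B] [Fintype B]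

/-- A1: the recursion. `Expands`: `a` nodes have `4 a` children. A run of length at most `2 ^ R` with at most `T`
different symbols for which at least `a` nodes have only full children gives a bad input. Halve the run. Nodes of
`comp … (i + 1)` have all children in `full … (i + 1)`; these are at least `4 a` nodes; if both halves have less than
`a` nodes in `comp … i`, at least `a` of them are in neither: take `A` among them. -/
theorem exists_inD (P : NProg (B × Word D m B) F Z S) (g : Fin D → Equiv.Perm (Fin n)) (x0 : Fin n × Fin m → B)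
    (h T a R : ℕ) (hX : Expands g a) (ha : 1 ≤ a) (hL : h + 1 ≤ Fintype.card (Word D m B))
    {I : B × Word D m B → F} (hcf : CF (fine g) x0 R (tab I)) {s t : Fin S} {c : List (B × Word D m B)}
    (hc : P.Run I s c t) (hlen : c.length ≤ 2 ^ R) (hT : Fintype.card (B × Word D m B) ≤ (free c).card + T)
    (hcomp : a ≤ (comp g x0 h R I (free c)).card) :
    ∃ i < R, ∃ s' p k1 k2 A h1 h2, k1 ≤ 2 ^ R ∧ k2 ≤ 2 ^ R ∧ A.card = a ∧ InD P g x0 h T i s' p k1 k2 A h1 h2 I := by
  sorry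

open Classical in
/-- A2: the bound in one orbit. The closure is exact: changes of symbols in `V1 x` keep `E1` and `V1`. Use
`fixed_bound` (Helper74.NQ) with `d = 1`, `e = e' =` indicator of `A`, and the sets `sub h (left cell (V1 x) …)`. -/
theorem exact_bound (g : Fin D → Equiv.Perm (Fin n)) (h1 h2 : Fin n → Fin D × Fin m) (cell t0 : Fin n × Fin m → B)
    (h T : ℕ) (E E1 E2 : Finset (Ch n D m F B)) (V1 V2 : Ch n D m F B → Finset (B × Word D m B))
    (hE1 : E ⊆ E1) (hE2 : E ⊆ E2)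
    (cl1 : ∀ x ∈ E1, ∀ x', (∀ p l, x' p l ≠ x p l → l ∈ left cell (V1 x) p) → x' ∈ E1 ∧ V1 x' = V1 x)
    (cl2 : ∀ x ∈ E2, ∀ x', (∀ p l, x' p l ≠ x p l → l ∈ left cell (V2 x) p) → x' ∈ E2 ∧ V2 x' = V2 x)
    (A : Finset (Fin n))
    (hT : ∀ x ∈ E, Fintype.card (B × Word D m B) ≤ (V1 x ∩ V2 x).card + T)
    (hfull : ∀ x ∈ E, ∀ u ∈ A, ∀ t, gap (V1 x ∩ V2 x) (t0 (u, t) + lam g x (u, t)) < h)
    (hJ1 : ∀ x ∈ E, ∀ u ∈ A, h ≤ (left cell (V1 x) (pos g h1 u)).card)
    (hJ2 : ∀ x ∈ E, ∀ u ∈ A, h ≤ (left cell (V2 x) (pos g h2 u)).card) (hh : 0 < h) (η : ℝ)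
    (hη : η = 1 + (1 - (T : ℝ) / Fintype.card (B × Word D m B) - (h : ℝ) / Fintype.card (Word D m B)) / 2)
    (hη1 : 1 ≤ η) :
    (E.card : ℝ) ≤ 2 * (1 / ((h : ℝ) / Fintype.card (Word D m B))) ^ (2 * A.card) / η ^ (m * A.card) *
      Nat.card (Ch n D m F B) := by
  sorry

open Classical in
/-- A3a: from orbits to inputs (general form of the second part of `card_inE` in Helper66/NQ/Orb.lean), for sums of a
function `f ≥ 0` which vanishes where `CF` fails. -/
theorem average (g : Fin D → Equiv.Perm (Fin n)) (x0 : Fin n × Fin m → B) (i : ℕ)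
    (f : (B × Word D m B → F) → ℝ) (hf : ∀ I, ¬ CF (fine g) x0 i (tab I) → f I = 0) (δ : ℝ) (hδ : 0 ≤ δ)
    (h : ∀ I, CF (fine g) x0 i (tab I) → ∑ x : Ch n D m F B, f (act g x0 i I x) ≤ δ * Nat.card (Ch n D m F B)) :
    ∑ I, f I ≤ δ * Nat.card (B × Word D m B → F) := by
  sorry

/-- A3b: from `exact_bound`, `average`, `run_unique`. -/
theorem card_inD (P : NProg (B × Word D m B) F Z S) (hP : Det P) (g : Fin D → Equiv.Perm (Fin n))
    (x0 : Fin n × Fin m → B) (h T i : ℕ) (s p : Fin S) (k1 k2 : ℕ) (A : Finset (Fin n))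
    (h1 h2 : Fin n → Fin D × Fin m) (hh : 0 < h) (η : ℝ)
    (hη : η = 1 + (1 - (T : ℝ) / Fintype.card (B × Word D m B) - (h : ℝ) / Fintype.card (Word D m B)) / 2)
    (hη1 : 1 ≤ η) :
    (Nat.card {I // InD P g x0 h T i s p k1 k2 A h1 h2 I} : ℝ) ≤
      2 * (1 / ((h : ℝ) / Fintype.card (Word D m B))) ^ (2 * A.card) / η ^ (m * A.card) *
        Nat.card (B × Word D m B → F) := by
  sorry

/-- A4: all types together (`h1`, `h2` matter on `A` only). -/
theorem bad_bound (P : NProg (B × Word D m B) F Z S) (hP : Det P) (g : Fin D → Equiv.Perm (Fin n))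
    (x0 : Fin n × Fin m → B) (h T a R : ℕ) (hX : Expands g a) (ha : 1 ≤ a) (hh : 0 < h)
    (hL : h + 1 ≤ Fintype.card (Word D m B)) (η : ℝ)
    (hη : η = 1 + (1 - (T : ℝ) / Fintype.card (B × Word D m B) - (h : ℝ) / Fintype.card (Word D m B)) / 2)
    (hη1 : 1 ≤ η) :
    (Nat.card {I // CF (fine g) x0 R (tab I) ∧ ∃ s c t, P.Run I s c t ∧ c.length ≤ 2 ^ R ∧
        Fintype.card (B × Word D m B) ≤ (free c).card + T ∧ a ≤ (comp g x0 h R I (free c)).card} : ℝ) ≤
      errA n D m a R S ((h : ℝ) / Fintype.card (Word D m B)) η * Nat.card (B × Word D m B → F) := by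
  sorry

open Classical in
/-- B1: the cylinder lemma in one orbit, two places for every window. For `l : Fin (2 w + 2)` let `j = l / 2` be its
window; the configuration `(x0, Y)`, `Y l : Fin n → Fin 1 → Word`, gives `x = x0 + ∑ l, flip g (hh (l / 2)) (Y l) 1_K`;
`x - (the two changes of the window j) ∈ E j`, and `Y l u 0 ∈ U j (…) u` misses the coordinate of the partner of `l`.
Move `Y` by `shift` (Helper74.NQ), apply `CB`, average. -/
theorem cyl_bound [AddCommGroup G] [Fintype G] {w : ℕ} (g : Fin D → Equiv.Perm (Fin n))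
    (hh : Fin (w + 1) → Fin n → Fin D × Fin m) (t0 : Fin n × Fin m → B) (K : Finset (Fin n)) (h : ℕ) (h0 : 0 < h)
    (E : Fin (w + 1) → Finset (Ch n D m F B))
    (U : Fin (w + 1) → Ch n D m F B → Fin n → Finset (Word D m B))
    (hU : ∀ j, ∀ x ∈ E j, ∀ u ∈ K, (U j x u).card = h)
    (cl : ∀ j, ∀ x ∈ E j, ∀ x', (∀ p l, x' p l ≠ x p l → ∃ u ∈ K, pos g (hh j) u = p ∧ l ∈ U j x u) →
      x' ∈ E j ∧ ∀ u ∈ K, U j x' u = U j x u)
    (γ : B → G) {δ : ℝ} (hδ : 0 ≤ δ) (hγ : CB γ (Fin K.card × Fin m) (2 * w + 1) δ) (z : G) :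
    ((univ.filter (fun x : Ch n D m F B => (∀ j, x ∈ E j) ∧ ∑ v, γ (t0 v + lam g x v) = z)).card : ℝ) ≤
      (univ.filter (fun x : Ch n D m F B => ∀ j, x ∈ E j)).card / Fintype.card G +
        δ * (1 / ((h : ℝ) / Fintype.card (Word D m B))) ^ (2 * (w + 1) * K.card) * Nat.card (Ch n D m F B) := by
  sorry

/-- B2: the inputs of one type, from `cyl_bound` and `average` (`E j` = the inputs `act g x0 R I x` with a greedy window
number `j`; `U j x u = sub h (left cell (free window) (pos …))`). -/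
theorem type_bound [AddCommGroup G] [Fintype G] (P : NProg (B × Word D m B) F Z S) (hP : Det P) (hD : 0 < D)
    (g : Fin D → Equiv.Perm (Fin n)) (x0 : Fin n × Fin m → B) {h T R w : ℕ} (h0 : 0 < h)
    (hhL : h ≤ Fintype.card (Word D m B)) {E : ℝ} (hE0 : 0 ≤ E)
    (γ : B → G) (σ : Fin (w + 2) → Fin S) (τ : Fin (w + 1) → Fin n → Option (Fin D × Fin m))
    (hE : CB γ (Fin (opn τ).card × Fin m) (2 * w + 1) E) (a : G) :
    (Nat.card {I : B × Word D m B → F // CF (fine g) x0 R (tab I) ∧ InT P g x0 h T R σ τ I ∧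
        gout g x0 R γ I = a} : ℝ) ≤
      Nat.card {I : B × Word D m B → F // CF (fine g) x0 R (tab I) ∧ InT P g x0 h T R σ τ I} / Fintype.card G +
        E * (1 / ((h : ℝ) / Fintype.card (Word D m B))) ^ (2 * (w + 1) * n) * Nat.card (B × Word D m B → F) := by
  sorry

/-- B3: all types, for fixed `γ` (like `unamb_bound` in Helper78/PH/Sum.lean, with `bad_bound` for the inputs with a
window with `a` nodes in `comp`). The length of a window is at most `S ≤ 2 ^ R`. -/
theorem det_bound [Fintype G] [AddCommGroup G] (P : NProg (B × Word D m B) F G S) (hP : Det P)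
    (g : Fin D → Equiv.Perm (Fin n)) (x0 : Fin n × Fin m → B) {h T a R w N : ℕ} (hX : Expands g a) (ha : 1 ≤ a)
    (hh : 0 < h) (hL : h + 1 ≤ Fintype.card (Word D m B)) (η : ℝ)
    (hη : η = 1 + (1 - (T : ℝ) / Fintype.card (B × Word D m B) - (h : ℝ) / Fintype.card (Word D m B)) / 2)
    (hη1 : 1 ≤ η) (hS : S ≤ 2 ^ R) (γ : B → G) {E : ℝ} (hE0 : 0 ≤ E) (hN : N + (w + 1) * a ≤ n)
    (hE : ∀ p, N ≤ p → CB γ (Fin p × Fin m) (2 * w + 1) E) :
    (Nat.card {I // CF (fine g) x0 R (tab I) ∧ ∃ l, P.Ends I l (gout g x0 R γ I) ∧ Cut T (w + 1) l} : ℝ) ≤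
      Nat.card {I // ∃ l z, P.Ends I l z ∧ Cut T (w + 1) l} / Fintype.card G +
        (errA n D m a R S ((h : ℝ) / Fintype.card (Word D m B)) η + (S * (D * m + 1) ^ n) ^ (w + 1) *
          (E * (1 / ((h : ℝ) / Fintype.card (Word D m B))) ^ (2 * (w + 1) * n))) *
          Nat.card (B × Word D m B → F) := by
  sorry

/-- B4: the average over `γ` (`fixz`; `bns2` / `bns` of helper18 with `2 w + 1`; `Helper4.PH.avg`, `card_tab` and the
bound for inputs without `CF` as in NQ). -/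
theorem main_bound (P : NProg (B × Word D m B) F F S) (hP : Det P) (g : Fin D → Equiv.Perm (Fin n))
    (x0 : Fin n × Fin m → B) (hx0 : Function.Injective x0) {h T a R w : ℕ} (hX : Expands g a) (ha : 1 ≤ a)
    (hh : 0 < h) (hL : h + 1 ≤ Fintype.card (Word D m B)) (η : ℝ)
    (hη : η = 1 + (1 - (T : ℝ) / Fintype.card (B × Word D m B) - (h : ℝ) / Fintype.card (Word D m B)) / 2)
    (hη1 : 1 ≤ η) (hS : S ≤ 2 ^ R) (hn : (w + 1) * a ≤ n) :
    (Nat.card {I // ∃ l, P.Ends I l (out g x0 R I) ∧ Cut T (w + 1) l} : ℝ) ≤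
      Nat.card {I // ∃ l z, P.Ends I l z ∧ Cut T (w + 1) l} / Fintype.card F +
        (((R + 1) * (n * m)) ^ 2 / Fintype.card B +
          Fintype.card F * 2 ^ (2 * w + 2) / Real.sqrt (Fintype.card B) +
          errA n D m a R S ((h : ℝ) / Fintype.card (Word D m B)) η + (S * (D * m + 1) ^ n) ^ (w + 1) *
          ((Fintype.card B : ℝ) ^ (-((n - (w + 1) * a : ℕ) * m : ℝ) / 2 ^ (2 * w + 3)) *
            (1 / ((h : ℝ) / Fintype.card (Word D m B))) ^ (2 * (w + 1) * n))) *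
          Nat.card (B × Word D m B → F) := by
  sorry

/-- P1: the pushdown program, from PH's (`Helper60.PH.pushdown_program` with `G = F`), symbol by symbol (`L` symbols of
a block, partial word and the symbol number `0` in the state). -/
theorem pushdown_program (g : Fin D → Equiv.Perm (Fin n)) (x0 : Fin n × Fin m → B) (R : ℕ) (hd : 1 ≤ D) (hn : 1 ≤ n) :
    ∃ (Q Γ : Type) (_ : Finite Q) (_ : Finite Γ) (P : PProg (B × Word D m B) F F Q Γ),
      Nat.card Q ≤ 4 * ((R + 2) * (n * m) * (D * m)) * (Fintype.card B ^ 2 * Fintype.card F) *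
          ((Fintype.card (Word D m B) + 1) * (Fintype.card (Word D m B) * Fintype.card F)) ∧
      Nat.card Γ ≤ 4 * ((R + 2) * (n * m) * (D * m)) * (Fintype.card B * Fintype.card F) ∧
      ∀ I, P.Outputs I (out g x0 R I) ∧
        Nat.card {b // P.Asks I b} ≤ (R + 2) * (n * m) * Fintype.card (Word D m B) := by
  sorry

end net

/-- N1: the numbers, `L = k ^ (15 m)` symbols in a block, `h = ⌊ε / (w + 2) / 2 * L⌋`. -/
theorem numbers : ∃ C : ℝ, 1 ≤ C ∧ ∀ (k m a w L h T S : ℕ) (ε η : ℝ), 0 < ε → ε ≤ 1 → C ≤ a →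
    C ^ (w + 1) / ε ^ 2 ≤ m → C * (a ^ 2 * (w + 1) * m : ℝ) ^ 2 ≤ k → L = k ^ (15 * m) →
    h = ⌊ε / (w + 2) / 2 * L⌋₊ → (T : ℝ) ≤ (1 - ε / (w + 2)) * (k * L) → S ≤ 2 ^ a →
    η = 1 + (1 - (T : ℝ) / (k * L) - (h : ℝ) / L) / 2 →
      0 < h ∧ h + 1 ≤ L ∧ 1 ≤ η ∧
      ((a + 1 : ℝ) * ((8 * a * (w + 1) : ℕ) * m)) ^ 2 / k + 2 * 2 ^ (2 * w + 2) / Real.sqrt k +
        errA (8 * a * (w + 1)) 15 m a a S ((h : ℝ) / L) η +
        (S * (15 * m + 1) ^ (8 * a * (w + 1))) ^ (w + 1) *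
          ((k : ℝ) ^ (-((8 * a * (w + 1) - (w + 1) * a : ℕ) * m : ℝ) / 2 ^ (2 * w + 3)) *
            (1 / ((h : ℝ) / L)) ^ (2 * (w + 1) * (8 * a * (w + 1)))) ≤ 1 / 100 := by
  sorry

end Pool.Agent.Helper96.PB.Frame
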